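import Pool.Agent.Work.MP_a4986b_nt.CFinal

set_option autoImplicit false
set_option maxHeartbeats 400000

/-! # MP_a4986b_nt: Q1 for cubic fields with given quadratic resolvent field and small
discriminant, for their Galois closures and for all their `p`-extensions

The conclusion `CubicExtensions p F` (file `Pool/Agent/Work/MP_a4986b_nt/CFinal.lean`) is
`Extensions p F` (file `BConcl.lean`) together with statements on the Galois closure of `F`. It is
proved for cubic fields `F` in which exactly one prime lies above `p`, when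

* `D_F = d f²` and `|D_F| ≤ c p² (1 + log p) ^ (2 (r(F) - 1))`, with `c > 0` depending only on the
  nonsquare `d`, where `r` is the unit rank;
* `D_F = D_k f²` with `k` imaginary quadratic and `3 h_k |f| ≤ 2 (1 - ε) w_k p`, `p` large;
* `F` contains a root of `X³ - 3 p X - 2 p x` with `p = x² + D y²` large. -/

namespace Pool.Agent.Results.MP_a4986b_nt.CubicFields

open NumberField Module NumberField.InfinitePlace NumberField.Units
open Pool.Agent.Work.MuB (CubicExtensions)

theorem result :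
    (∀ d : ℤ, ¬ IsSquare d → ∃ c : ℝ, 0 < c ∧ ∀ (F : Type) [Field F] [NumberField F] (p : ℕ),
      p.Prime → p ≠ 2 → finrank ℚ F = 3 → (∃ f : ℤ, discr F = d * f ^ 2) →
      |(discr F : ℝ)| ≤ c * (p : ℝ) ^ 2 * (1 + Real.log p) ^ (2 * (Units.rank F - 1)) →
      (∃! P : Ideal (𝓞 F), P.IsPrime ∧ (p : 𝓞 F) ∈ P) → CubicExtensions p F) ∧
    (∀ (k : Type) [Field k] [NumberField k], finrank ℚ k = 2 → nrComplexPlaces k = 1 →
      ∀ ε : ℝ, 0 < ε → ∃ p0 : ℕ, ∀ (F : Type) [Field F] [NumberField F] (p : ℕ), p.Prime →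
        p0 ≤ p → finrank ℚ F = 3 → ∀ f : ℤ, discr F = discr k * f ^ 2 →
        3 * (Nat.card (ClassGroup (𝓞 k)) : ℝ) * |(f : ℝ)| ≤ 2 * (1 - ε) * torsionOrder k * p →
        (∃! P : Ideal (𝓞 F), P.IsPrime ∧ (p : 𝓞 F) ∈ P) → CubicExtensions p F) ∧
    (∀ D : ℕ, 0 < D → ¬ IsSquare (3 * D) → ∃ p0 : ℕ, ∀ p : ℕ, p.Prime → p0 ≤ p →
      ∀ x y : ℤ, x ^ 2 + D * y ^ 2 = p → ∀ (F : Type) [Field F] [NumberField F],
        finrank ℚ F = 3 → (∃ t : F, t ^ 3 = 3 * p * t + 2 * p * x) →
        (∃! P : Ideal (𝓞 F), P.IsPrime ∧ (p : 𝓞 F) ∈ P) ∧ CubicExtensions p F) :=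
  Pool.Agent.Work.MuB.cubic_fields

end Pool.Agent.Results.MP_a4986b_nt.CubicFields
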