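import Pool.Agent.Work.MP_a4986b_nt.ZFin
import Pool.Agent.Work.MP_a4986b_nt.ZOct

set_option autoImplicit false
set_option maxHeartbeats 400000

/-! # MP_a4986b_nt: Q1 for non-split extensions of degree prime to `p`, and for all their
`p`-extensions

Let `F / k` be an extension of number fields and `p` an odd prime. `F / k` is non-split above `p` if
two primes of `F` above `p` with the same restriction to `k` are equal (`NonSplit p k F`). The
conclusion `RelExtensions p k F` (file `Pool/Agent/Work/MP_a4986b_nt/YDisc.lean`) says that the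
layers of the cyclotomic `ℤ_p`-extensions of `F` and `k` have class numbers with the same `p`-part,
and that, if the `p`-ranks of the class groups of the layers of `k` are bounded, Q1 holds for `p`
and all subfields of index prime to `p` of Galois extensions of `F` of `p`-power degree. The
conclusion `Extensions p F` (file `BConcl.lean`) has no hypothesis on `k`.

(1) If `p` does not divide `[F : k]` and `F / k` is non-split above `p`, not necessarily Galois, then
  `RelExtensions p k F` holds if and only if the class numbers of `F` and `k` have the same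
  `p`-part.
(2) For all `k` and `n`: all `F / k` of degree `n` with `|D_F|` at most `c p²` times a power of
  `1 + log p` (`DiscrAt c 1 p k F`, file `ZMain.lean`), over every intermediate field over which `F`
  is non-split above `p`.
(3) For abelian `F / k`, the discriminants of the cyclic subextensions `F'` may be as large as
  `c p ^ (2 f)` times a power of `1 + log p`, `f` the order of `p` modulo `[F' : k]`.
(4) For `F / k` of prime degree `q` with solvable normal closure `N / k`, the discriminant of `F` may
  be as large as `c p ^ (2 f)` times a power of `1 + log p`, `f` the order of `p ^ [N : F]`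
  modulo `q`.
(5) `F = K(√(p α))`, `K` real quadratic, for all odd `p` and all totally positive `α` in `K` of norm
  at most `c (1 + log p)²`.
(6) `F = K(√a, √(p α))`, `K` real quadratic, for all odd `p` and all totally positive `a`, `α` in `K`
  such that `a α` has norm at most `c (1 + log p)²` and `a` is not a square modulo any prime
  above `p`. -/

namespace Pool.Agent.Results.MP_a4986b_nt.NonSplitExtensions

open NumberField Module
open Pool.Agent.Work.MuY (RelExtensions NonSplit)
open Pool.Agent.Work.MuB (Extensions)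
open Pool.Agent.Work.MuZ (DiscrAt)

/-- abelian `F / k` of degree prime to `p`, non-split above `p` over an intermediate field `k'`, with
a bound for the discriminants of the cyclic subextensions that `k'` does not contain -/
theorem abelian_case :
    ∀ (k : Type) [Field k] [NumberField k] (n : ℕ), ∃ c : ℝ, 0 < c ∧
      ∀ (F : Type) [Field F] [NumberField F] [Algebra k F] [IsAbelianGalois k F] (p : ℕ),
        p.Prime → p ≠ 2 → finrank k F = n → ¬ p ∣ n →
        ∀ (k' : Type) [Field k'] [NumberField k'] [Algebra k k'] [Algebra k' F]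
          [IsScalarTower k k' F], NonSplit p k' F →
          (∀ (F' : Type) [Field F'] [NumberField F'] [Algebra k F'] [Algebra F' F]
            [IsScalarTower k F' F], IsCyclic Gal(F'/k) →
            ¬ Set.range (algebraMap F' F) ⊆ Set.range (algebraMap k' F) →
            DiscrAt c (orderOf (p : ZMod (finrank k F'))) p k F') → RelExtensions p k' F := by
  intro k _ _ n
  obtain ⟨c, hc, h⟩ := Pool.Agent.Work.MuZ.small_abelian k n
  refine ⟨c, hc, fun F _ _ _ _ p hp hp2 hF hpn k' _ _ _ _ _ hns hD => ?_⟩
  refine h F p hp hp2 hF hpn k' hns fun F' hcyc hF' => ?_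
  have hnf : NumberField F' := NumberField.of_intermediateField F'
  refine hD F' hcyc fun hsub => hF' ?_
  intro x hx
  exact hsub ⟨⟨x, hx⟩, rfl⟩

/-- `F = K(√a, √(p α))`, `K` real quadratic, `a α` of small norm, `a` not a square modulo the primes
above `p` -/
def BiquadraticCase : Prop :=
  ∀ (K : Type) [Field K] [NumberField K], finrank ℚ K = 2 → Nonempty (K →+* ℝ) →
    ∃ c : ℝ, 0 < c ∧ ∀ p : ℕ, p.Prime → p ≠ 2 → ∀ a α : 𝓞 K, (∀ φ : K →+* ℝ, 0 < φ a) →
      (∀ φ : K →+* ℝ, 0 < φ α) →
      (∀ Q : Ideal (𝓞 K), Q.IsPrime → (p : 𝓞 K) ∈ Q → ∀ b : 𝓞 K, b ^ 2 - a ∉ Q) →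
      |(Algebra.norm ℤ (a * α) : ℝ)| ≤ c * (1 + Real.log p) ^ 2 →
      ∀ (F : Type) [Field F] [NumberField F] [Algebra K F] (z w : F),
        z ^ 2 = algebraMap K F a → w ^ 2 = algebraMap K F (p * α) →
        IntermediateField.adjoin K {z, w} = ⊤ → finrank K F = 4 ∧ NonSplit p K F ∧
          ¬ p ∣ Nat.card (ClassGroup (𝓞 F)) ∧ RelExtensions p K F ∧
          ((Ideal.span {(p : 𝓞 K)}).IsPrime → Extensions p F)

theorem result :
    (∀ p : ℕ, p.Prime → p ≠ 2 → ∀ (k F : Type) [Field k] [NumberField k] [Field F]
      [NumberField F] [Algebra k F], ¬ p ∣ finrank k F → NonSplit p k F →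
      (RelExtensions p k F ↔ padicValNat p (Nat.card (ClassGroup (𝓞 F))) =
        padicValNat p (Nat.card (ClassGroup (𝓞 k))))) ∧
    (∀ (k : Type) [Field k] [NumberField k] (n : ℕ), ∃ c : ℝ, 0 < c ∧
      ∀ (F : Type) [Field F] [NumberField F] [Algebra k F] (p : ℕ), p.Prime → p ≠ 2 →
        finrank k F = n → DiscrAt c 1 p k F →
        ¬ p ∣ Nat.card (ClassGroup (𝓞 F)) ∧
        (∀ (k' : Type) [Field k'] [NumberField k'] [Algebra k k'] [Algebra k' F]
          [IsScalarTower k k' F], NonSplit p k' F → RelExtensions p k' F) ∧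
        ((∃! P : Ideal (𝓞 F), P.IsPrime ∧ (p : 𝓞 F) ∈ P) → Extensions p F)) ∧
    (∀ (k : Type) [Field k] [NumberField k] (n : ℕ), ∃ c : ℝ, 0 < c ∧
      ∀ (F : Type) [Field F] [NumberField F] [Algebra k F] [IsAbelianGalois k F] (p : ℕ),
        p.Prime → p ≠ 2 → finrank k F = n → ¬ p ∣ n →
        ∀ (k' : Type) [Field k'] [NumberField k'] [Algebra k k'] [Algebra k' F]
          [IsScalarTower k k' F], NonSplit p k' F →
          (∀ (F' : Type) [Field F'] [NumberField F'] [Algebra k F'] [Algebra F' F]
            [IsScalarTower k F' F], IsCyclic Gal(F'/k) →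
            ¬ Set.range (algebraMap F' F) ⊆ Set.range (algebraMap k' F) →
            DiscrAt c (orderOf (p : ZMod (finrank k F'))) p k F') → RelExtensions p k' F) ∧
    (∀ (k : Type) [Field k] [NumberField k] (q : ℕ), q.Prime → ∃ c : ℝ, 0 < c ∧
      ∀ (F N : Type) [Field F] [NumberField F] [Field N] [NumberField N]
        [Algebra k F] [Algebra F N] [Algebra k N] [IsScalarTower k F N] [IsGalois k N]
        [IsNormalClosure k F N], Group.IsSolvable Gal(N/k) → ∀ p : ℕ, p.Prime → p ≠ 2 →
        finrank k F = q → NonSplit p k F →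
        DiscrAt c (orderOf ((p : ZMod q) ^ finrank F N)) p k F → RelExtensions p k F) ∧
    (∀ (K : Type) [Field K] [NumberField K], finrank ℚ K = 2 → Nonempty (K →+* ℝ) →
      ∃ c : ℝ, 0 < c ∧ ∀ p : ℕ, p.Prime → p ≠ 2 → ∀ α : 𝓞 K, (∀ φ : K →+* ℝ, 0 < φ α) →
        |(Algebra.norm ℤ α : ℝ)| ≤ c * (1 + Real.log p) ^ 2 →
        ∀ (F : Type) [Field F] [NumberField F] [Algebra K F] (z : F), finrank K F = 2 →
          z ^ 2 = algebraMap K F (p * α) →
          NonSplit p K F ∧ ¬ p ∣ Nat.card (ClassGroup (𝓞 F)) ∧ RelExtensions p K F ∧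
            ((Ideal.span {(p : 𝓞 K)}).IsPrime → Extensions p F)) ∧
    BiquadraticCase :=
  ⟨fun _ hp hp2 k F _ _ _ _ _ hpn hns => Pool.Agent.Work.MuZ.rel_iff hp hp2 k F hpn hns,
    fun k _ _ n => Pool.Agent.Work.MuZ.any_degree2 k n,
    abelian_case,
    fun k _ _ q hq => Pool.Agent.Work.MuZ.solvable_degree k q hq,
    fun K _ _ hK ⟨r⟩ => Pool.Agent.Work.MuZ.real_quad2 K hK r,
    fun K _ _ hK ⟨r⟩ => Pool.Agent.Work.MuZ.oct_rel K hK r⟩

end Pool.Agent.Results.MP_a4986b_nt.NonSplitExtensions
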