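import Pool.Agent.Work.MP_a4986b_nt.ZRad
import Pool.Agent.Work.MP_a4986b_nt.YMany
import Pool.Agent.Work.MP_a4986b_nt.ClosG

set_option autoImplicit false
set_option maxHeartbeats 400000

/-! # MP_a4986b_nt: Q1 for radical extensions and for all their `p`-extensions

Let `p` be an odd prime. The conclusion `RelExtensions p k F` (file
`Pool/Agent/Work/MP_a4986b_nt/YDisc.lean`) says that the layers of the cyclotomic
`ℤ_p`-extensions of `F` and `k` have class numbers with the same `p`-part, and that, if the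
`p`-ranks of the class groups of the layers of `k` are bounded, Q1 holds for `p` and all subfields
of index prime to `p` of Galois extensions of `F` of `p`-power degree. The conclusion
`Extensions p F` (file `BConcl.lean`) has no hypothesis on `k`.

(1) `F = k(a ^ (1 / q))` of prime degree `q` over any number field `k`, when at every prime of `k`
  above `p` the valuation of `a` is prime to `q` or `a` is not a `q`-th power, and the norm of `a`
  is small.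
(2) `F = k(a ^ (1 / n))`, `n = q ^ j`, `k` the `n`-th cyclotomic field, `p` a primitive root modulo
  `n`, `a` not a `q`-th power modulo `p`, of small norm: one prime of `F` lies above `p`, and `p` does
  not divide the class number of `F`.
(3) Many pairwise non-isomorphic fields of degree `n φ(n)` with these properties, not Galois over
  `ℚ`, for every `p` that is a primitive root modulo `q ^ 2`.
(4) Pure cubic fields `F` with `F = ℚ(p ^ (1 / 3))`, or `|D_F| ≤ 27 p²` and one prime above `p`; their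
  normal closures. -/

namespace Pool.Agent.Results.MP_a4986b_nt.RadicalExtensions

open NumberField Module IntermediateField
open Pool.Agent.Work.MuY (RelExtensions)
open Pool.Agent.Work.MuB (Extensions)
open Pool.Agent.Work.MuS (ManyFields)

theorem result :
    (∀ (k : Type) [Field k] [NumberField k] (q : ℕ), q.Prime → ∃ c : ℝ, 0 < c ∧
      ∀ p : ℕ, p.Prime → p ≠ 2 → ∀ a : 𝓞 k,
        (∀ Q : Ideal (𝓞 k), Q.IsPrime → (p : 𝓞 k) ∈ Q →
          (∃ i : ℕ, ¬ q ∣ i ∧ a ∈ Q ^ i ∧ a ∉ Q ^ (i + 1)) ∨ ∀ b : 𝓞 k, b ^ q - a ∉ Q) →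
        ∀ (F : Type) [Field F] [NumberField F] [Algebra k F] (t : F), finrank k F = q →
          t ^ q = algebraMap k F a → t ∉ Set.range (algebraMap k F) →
          |(Algebra.norm ℤ a : ℝ)| ^ (q - 1) ≤
            c * (p : ℝ) ^ (2 * orderOf ((p : ZMod q) ^ finrank k (CyclotomicField q k))) *
              (1 + Real.log p) ^ (2 * ((Units.rank F : ℤ) - Units.rank k - q + 1)) →
          RelExtensions p k F) ∧
    (∀ q j : ℕ, q.Prime → q ≠ 2 → j ≠ 0 → ∀ (k : Type) [Field k] [NumberField k]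
      [IsCyclotomicExtension {q ^ j} ℚ k], ∃ c : ℝ, 0 < c ∧
      ∀ p : ℕ, p.Prime → p ≠ 2 → orderOf (p : ZMod (q ^ j)) = Nat.totient (q ^ j) →
        ∀ a : 𝓞 k, (∀ b : 𝓞 k, ¬ (p : 𝓞 k) ∣ b ^ q - a) →
        |(Algebra.norm ℤ a : ℝ)| ^ (q ^ j - 1) ≤ c * (p : ℝ) ^ (2 * Nat.totient (q ^ j)) *
          (1 + Real.log p) ^ (Nat.totient (q ^ j) ^ 2 - 2 * (q ^ j - 1)) →
        ∀ (F : Type) [Field F] [NumberField F] [Algebra k F] (t : F),
          t ^ q ^ j = algebraMap k F a →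
          IntermediateField.adjoin k {t} = ⊤ →
          (∃! P : Ideal (𝓞 F), P.IsPrime ∧ (p : 𝓞 F) ∈ P) ∧
            ¬ p ∣ Nat.card (ClassGroup (𝓞 F)) ∧ Extensions p F) ∧
    (∀ q j : ℕ, q.Prime → q ≠ 2 → j ≠ 0 → ∃ c : ℝ, 0 < c ∧
      ∀ p : ℕ, p.Prime → p ≠ 2 → orderOf (p : ZMod (q ^ 2)) = q * (q - 1) →
        ∀ N : ℕ, (N : ℝ) ^ (q ^ j - 1) ≤ c * (p : ℝ) ^ (2 * Nat.totient (q ^ j)) →
          ManyFields N (fun F _ _ => finrank ℚ F = q ^ j * Nat.totient (q ^ j) ∧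
            ¬ IsGalois ℚ F ∧ ((∃! P : Ideal (𝓞 F), P.IsPrime ∧ (p : 𝓞 F) ∈ P) ∧
              ¬ p ∣ Nat.card (ClassGroup (𝓞 F)) ∧ Extensions p F))) ∧
    (∀ (p : ℕ) (t w : ℂ) [NumberField ℚ⟮t⟯], p.Prime → p ≠ 2 →
      t ^ 3 ∈ Set.range (algebraMap ℚ ℂ) → finrank ℚ ℚ⟮t⟯ = 3 → w ^ 2 + w + 1 = 0 →
      (t ^ 3 = p ∨ (|discr ℚ⟮t⟯| ≤ 27 * (p : ℤ) ^ 2 ∧
        ∃! P : Ideal (𝓞 ℚ⟮t⟯), P.IsPrime ∧ (p : 𝓞 ℚ⟮t⟯) ∈ P)) →
      (∀ K : IntermediateField ℚ ℂ, K = ℚ⟮t⟯ ∨ (p % 3 = 2 ∧ K = adjoin ℚ {t, w}) →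
        ∀ (L : IntermediateField ℚ ℂ) [NumberField L] [Algebra K L] [IsGalois K L] (n : ℕ),
          finrank K L = p ^ n →
          ((∀ Q : Ideal (𝓞 L), Q.IsPrime → Q ≠ ⊥ → (p : 𝓞 L) ∉ Q →
            Q.ramificationIdx (𝓞 K) = 1) →
          ∀ (m : ℕ) (E : IntermediateField ℚ ℂ),
            E ≤ adjoin ℚ {z : ℂ | z ^ (p ^ (m + 1)) = 1} → finrank ℚ E = p ^ m →
            ¬ p ∣ Nat.card (ClassGroup (𝓞 ↥(L ⊔ E)))) ∧
          (∀ L' : IntermediateField ℚ ℂ, L' ≤ L → ¬ p ∣ relfinrank L' L →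
            ∃ C : ℕ, ∀ (m : ℕ) (E : IntermediateField ℚ ℂ),
              E ≤ adjoin ℚ {z : ℂ | z ^ (p ^ (m + 1)) = 1} → finrank ℚ E = p ^ m →
              padicValNat p (Nat.card (ClassGroup (𝓞 ↥(L' ⊔ E)))) ≤ C * (m + 1))) ∧
      (p ≠ 3 → ∀ (m : ℕ) (E : IntermediateField ℚ ℂ),
        E ≤ adjoin ℚ {z : ℂ | z ^ (p ^ (m + 1)) = 1} → finrank ℚ E = p ^ m →
        padicValNat p (Nat.card (ClassGroup (𝓞 ↥(adjoin ℚ {t, w} ⊔ E)))) =
          padicValNat p (Nat.card (ClassGroup (𝓞 ↥(ℚ⟮w⟯ ⊔ E)))))) :=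
  ⟨fun k _ _ q hq => Pool.Agent.Work.MuZ.radical_prime k q hq,
    fun q j hq hq2 hj k _ _ _ => Pool.Agent.Work.MuY.kummer_pow q j hq hq2 hj k,
    fun q j hq hq2 hj => Pool.Agent.Work.MuY.many_pow2 q j hq hq2 hj,
    fun p t w _ hp hp2 ht h3 hw h => Pool.Agent.Work.Mu22.cg_main p t w hp hp2 ht h3 hw h⟩

end Pool.Agent.Results.MP_a4986b_nt.RadicalExtensions
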