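import Pool.Agent.Work.MP_a4986b_nt.SpFin

set_option autoImplicit false
set_option maxHeartbeats 400000

/-! # MP_a4986b_nt: Q1 for fields with several primes above `p`, and for all their `p`-extensions

The conclusion `SplitExtensions p r F` (for cubic fields with their closures: `PureSplit p F`), both
in `Pool/Agent/Work/MP_a4986b_nt/SpDef2.lean`, is proved
(1) for relative extensions `F/k` of degree `d` of discriminant about `p²` with at most `r + 1`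
primes above `p` and an invertible matrix of logarithms (`LogDatum`, file `SpDef.lean`),
(2) for pure cubic fields, `p ≡ 2` modulo `3`, at least `p ^ (1/3) / 40` of them for every such `p`,
(3) for every large prime `p` and many non-Galois cubic fields of each of the three decomposition
types with more than one prime above `p`, `(p) = P₁ P₂ P₃`, `P₁ P₂`, `P₁ P₂²`,
(4) for a family of quartic fields.
`ManyFields n T` (file `SpDef.lean`): there are `n` pairwise non-isomorphic fields with `T`. -/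

namespace Pool.Agent.Results.MP_a4986b_nt.SplitPrimes

open NumberField Module NumberField.Units
open Pool.Agent.Work.MuS (LogDatum ManyFields SplitExtensions PureSplit)

theorem result :
    (∀ (k : Type) [Field k] [NumberField k] (d : ℕ), ∃ C : ℝ, 0 < C ∧
      ∀ (F : Type) [Field F] [NumberField F] [Algebra k F] (ρ p r : ℕ), p.Prime → p ≠ 2 →
        finrank k F = d → finrank ℚ F < p →
        (∀ F' : IntermediateField k F, F' ≠ ⊤ → Units.rank F' ≤ ρ) → ρ ≤ Units.rank F →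
        |(discr F : ℝ)| ≤ C * (p : ℝ) ^ 2 *
          (1 + Real.log p) ^ (2 * ((Units.rank F : ℤ) - ρ - d + 1)) →
        {Q : Ideal (𝓞 F) | Q.IsPrime ∧ (p : 𝓞 F) ∈ Q}.ncard ≤ r + 1 → LogDatum p r F →
        SplitExtensions p r F) ∧
    (∀ p : ℕ, p.Prime → p % 3 = 2 → 5 ≤ p →
      (∀ (F : Type) [Field F] [NumberField F], finrank ℚ F = 3 →
        (∃ t : F, t ∉ Set.range (algebraMap ℚ F) ∧ t ^ 3 ∈ Set.range (algebraMap ℚ F)) →
        |discr F| ≤ 27 * (p : ℤ) ^ 2 → LogDatum p 1 F → PureSplit p F) ∧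
      (∃ m : ℕ, (m = p - 1 ∨ m = p + 1) ∧ ∀ (F : Type) [Field F] [NumberField F],
        finrank ℚ F = 3 → (∃ t : F, t ^ 3 = m) →
        {P : Ideal (𝓞 F) | P.IsPrime ∧ (p : 𝓞 F) ∈ P}.ncard = 2 ∧ PureSplit p F) ∧
      (∀ n : ℕ, (40 * n) ^ 3 ≤ p → ManyFields n (fun F _ _ => finrank ℚ F = 3 ∧
        (∃ t : F, t ∉ Set.range (algebraMap ℚ F) ∧ t ^ 3 ∈ Set.range (algebraMap ℚ F)) ∧
        {P : Ideal (𝓞 F) | P.IsPrime ∧ (p : 𝓞 F) ∈ P}.ncard = 2 ∧ PureSplit p F))) ∧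
    (∃ p0 : ℕ, ∀ p : ℕ, p.Prime → p0 ≤ p →
      (∀ n : ℕ, n ^ 7 ≤ p → ManyFields n (fun F _ _ => finrank ℚ F = 3 ∧ ¬ IsGalois ℚ F ∧
        {P : Ideal (𝓞 F) | P.IsPrime ∧ (p : 𝓞 F) ∈ P}.ncard = 3 ∧ SplitExtensions p 2 F)) ∧
      (∀ n : ℕ, n ^ 50 ≤ p → ManyFields n (fun F _ _ => finrank ℚ F = 3 ∧ ¬ IsGalois ℚ F ∧
        (∃ P Q : Ideal (𝓞 F), P.IsPrime ∧ Q.IsPrime ∧ P ≠ Q ∧
          Ideal.span {(p : 𝓞 F)} = P * Q) ∧ PureSplit p F)) ∧
      (∀ n : ℕ, n ^ 7 ≤ p → ManyFields n (fun F _ _ => finrank ℚ F = 3 ∧ ¬ IsGalois ℚ F ∧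
        (∃ P Q : Ideal (𝓞 F), P.IsPrime ∧ Q.IsPrime ∧ P ≠ Q ∧
          Ideal.span {(p : 𝓞 F)} = P * Q ^ 2) ∧ PureSplit p F))) ∧
    (∀ (K : Type) [Field K] [NumberField K], finrank ℚ K = 2 → ∀ (_ : K →+* ℝ) (u : (𝓞 K)ˣ),
      (∀ φ : K →+* ℝ, 0 < φ (u : 𝓞 K)) →
      ∃ p0 : ℕ, ∀ p : ℕ, p.Prime → p0 ≤ p → (Ideal.span {(p : 𝓞 K)}).IsPrime →
        ∀ (F : Type) [Field F] [NumberField F] [Algebra K F], finrank K F = 2 →
          (∃ z : F, z ^ 2 = algebraMap K F (1 + 4 * p * (u : 𝓞 K))) →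
          {P : Ideal (𝓞 F) | P.IsPrime ∧ (p : 𝓞 F) ∈ P}.ncard = 2 ∧
            SplitExtensions p 1 F) :=
  ⟨fun k _ _ d => Pool.Agent.Work.MuS.relative_criterion k d,
    fun p hp hp3 hp5 => Pool.Agent.Work.MuS.pure_cubic p hp hp3 hp5,
    Pool.Agent.Work.MuS.all_large_many,
    fun K _ _ hK r u hu => Pool.Agent.Work.MuS.quartic' K hK r u hu⟩

end Pool.Agent.Results.MP_a4986b_nt.SplitPrimes
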